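import Pool.Agent.W5h91.GG.Rep

/-!
# The cross ratio of the growths is at least quadratic without transitivity
-/

set_option autoImplicit false

open Filter Topology Set Metric

namespace Pool.Agent.W5h91.GG

open Pool.Agent.H789R2.AN Pool.Agent.Y330.G

/-- Arithmetic: convolution inequalities on both sides. -/
theorem arith {u s B D : ℕ → ℕ} {Cu Cs K K' j₀ : ℕ}
    (hu : ∀ n m, u (n + m) ≤ Cu * (u n * u m)) (hs : ∀ n m, s (n + m) ≤ Cs * (s n * s m))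
    (hI : ∀ m n, j₀ * m ≤ n → ∑ i ∈ Finset.range m, s (j₀ * (i + 1)) * u (n - j₀ * (i + 1)) ≤
      K * B n)
    (hII : ∀ m n, j₀ * m ≤ n → ∑ i ∈ Finset.range m, u (j₀ * (i + 1)) * s (n - j₀ * (i + 1)) ≤
      K' * D n) (m n : ℕ) (hmn : j₀ * m ≤ n) :
    m ^ 2 * (u n * s n) ≤ (Cu * Cs * K * K') * (B n * D n) := by
  set x : ℕ → ℝ := fun i => ((s (j₀ * (i + 1)) * u (n - j₀ * (i + 1)) : ℕ) : ℝ) with hx
  set y : ℕ → ℝ := fun i => ((u (j₀ * (i + 1)) * s (n - j₀ * (i + 1)) : ℕ) : ℝ) with hy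
  have hx0 : ∀ i, 0 ≤ x i := fun i => Nat.cast_nonneg _
  have hy0 : ∀ i, 0 ≤ y i := fun i => Nat.cast_nonneg _
  set W : ℝ := ((u n * s n : ℕ) : ℝ) with hW
  have hW0 : 0 ≤ W := Nat.cast_nonneg _
  have hC0 : (0 : ℝ) ≤ (Cu * Cs : ℕ) := Nat.cast_nonneg _
  have h1 : ∀ i ∈ Finset.range m, Real.sqrt W ≤
      Real.sqrt (Cu * Cs : ℕ) * (Real.sqrt (x i) * Real.sqrt (y i)) := by
    intro i hi
    have hk : j₀ * (i + 1) ≤ n :=
      (Nat.mul_le_mul_left _ (Finset.mem_range.mp hi)).trans hmn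
    have e : j₀ * (i + 1) + (n - j₀ * (i + 1)) = n := by omega
    have h2 := hu (j₀ * (i + 1)) (n - j₀ * (i + 1))
    have h3 := hs (j₀ * (i + 1)) (n - j₀ * (i + 1))
    rw [e] at h2 h3
    have h4 : u n * s n ≤ (Cu * Cs) * ((s (j₀ * (i + 1)) * u (n - j₀ * (i + 1))) *
        (u (j₀ * (i + 1)) * s (n - j₀ * (i + 1)))) := by
      calc u n * s n ≤ (Cu * (u (j₀ * (i + 1)) * u (n - j₀ * (i + 1)))) *
            (Cs * (s (j₀ * (i + 1)) * s (n - j₀ * (i + 1)))) := Nat.mul_le_mul h2 h3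
        _ = _ := by ring
    rw [← Real.sqrt_mul (hx0 i), ← Real.sqrt_mul hC0]
    apply Real.sqrt_le_sqrt
    simp only [hW, hx, hy]
    exact_mod_cast h4
  have h2 : (m : ℝ) * Real.sqrt W ≤ Real.sqrt (Cu * Cs : ℕ) *
      (Real.sqrt (∑ i ∈ Finset.range m, x i) * Real.sqrt (∑ i ∈ Finset.range m, y i)) := by
    calc (m : ℝ) * Real.sqrt W = ∑ i ∈ Finset.range m, Real.sqrt W := by
          rw [Finset.sum_const, Finset.card_range, nsmul_eq_mul]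
      _ ≤ ∑ i ∈ Finset.range m, Real.sqrt (Cu * Cs : ℕ) * (Real.sqrt (x i) * Real.sqrt (y i)) :=
          Finset.sum_le_sum h1
      _ = Real.sqrt (Cu * Cs : ℕ) * ∑ i ∈ Finset.range m, Real.sqrt (x i) * Real.sqrt (y i) := by
          rw [Finset.mul_sum]
      _ ≤ _ := by
          apply mul_le_mul_of_nonneg_left _ (Real.sqrt_nonneg _)
          exact Real.sum_sqrt_mul_sqrt_le _ hx0 hy0
  have h3 : ((m : ℝ) * Real.sqrt W) ^ 2 ≤ (Real.sqrt (Cu * Cs : ℕ) *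
      (Real.sqrt (∑ i ∈ Finset.range m, x i) * Real.sqrt (∑ i ∈ Finset.range m, y i))) ^ 2 :=
    pow_le_pow_left₀ (by positivity) h2 2
  rw [mul_pow, mul_pow, mul_pow, Real.sq_sqrt hW0, Real.sq_sqrt hC0,
    Real.sq_sqrt (Finset.sum_nonneg fun i _ => hx0 i),
    Real.sq_sqrt (Finset.sum_nonneg fun i _ => hy0 i)] at h3
  have h4 : ∑ i ∈ Finset.range m, x i ≤ ((K * B n : ℕ) : ℝ) := by
    rw [hx, ← Nat.cast_sum]
    exact_mod_cast hI m n hmn
  have h5 : ∑ i ∈ Finset.range m, y i ≤ ((K' * D n : ℕ) : ℝ) := by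
    rw [hy, ← Nat.cast_sum]
    exact_mod_cast hII m n hmn
  have h6 : (m : ℝ) ^ 2 * W ≤ (Cu * Cs : ℕ) * (((K * B n : ℕ) : ℝ) * ((K' * D n : ℕ) : ℝ)) := by
    refine h3.trans (mul_le_mul_of_nonneg_left ?_ hC0)
    exact mul_le_mul h4 h5 (Finset.sum_nonneg fun i _ => hy0 i) (Nat.cast_nonneg _)
  have h7 : m ^ 2 * (u n * s n) ≤ (Cu * Cs) * ((K * B n) * (K' * D n)) := by
    rw [hW] at h6
    exact_mod_cast h6
  calc m ^ 2 * (u n * s n) ≤ (Cu * Cs) * ((K * B n) * (K' * D n)) := h7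
    _ = _ := by ring

/-- From multiples of `j₀` to all `n`. -/
theorem arith2 {W Q : ℕ → ℕ} {j₀ C : ℕ} (hj : 1 ≤ j₀) (hQ : ∀ n, 1 ≤ Q n)
    (h : ∀ m n, j₀ * m ≤ n → m ^ 2 * W n ≤ C * Q n) :
    ∃ C' : ℕ, ∀ n, n ^ 2 * W n ≤ C' * Q n := by
  refine ⟨4 * j₀ ^ 2 * C + j₀ ^ 2 * ∑ k ∈ Finset.range j₀, W k, fun n => ?_⟩
  rcases lt_or_ge n j₀ with hn | hn
  · have h1 : W n ≤ ∑ k ∈ Finset.range j₀, W k :=
      Finset.single_le_sum (f := W) (fun _ _ => Nat.zero_le _) (Finset.mem_range.mpr hn)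
    calc n ^ 2 * W n ≤ j₀ ^ 2 * ∑ k ∈ Finset.range j₀, W k :=
          Nat.mul_le_mul (Nat.pow_le_pow_left hn.le 2) h1
      _ ≤ (4 * j₀ ^ 2 * C + j₀ ^ 2 * ∑ k ∈ Finset.range j₀, W k) * 1 := by omega
      _ ≤ _ := Nat.mul_le_mul_left _ (hQ n)
  · have h1 := h (n / j₀) n (Nat.mul_div_le n j₀)
    have h2 : n ≤ 2 * j₀ * (n / j₀) := by
      have h3 := Nat.lt_mul_div_succ n (show 0 < j₀ by omega)
      have h4 : 1 ≤ n / j₀ := (Nat.one_le_div_iff (by omega)).mpr hn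
      nlinarith
    calc n ^ 2 * W n ≤ (2 * j₀ * (n / j₀)) ^ 2 * W n :=
          Nat.mul_le_mul_right _ (Nat.pow_le_pow_left h2 2)
      _ = 4 * j₀ ^ 2 * ((n / j₀) ^ 2 * W n) := by ring
      _ ≤ 4 * j₀ ^ 2 * (C * Q n) := Nat.mul_le_mul_left _ h1
      _ = (4 * j₀ ^ 2 * C) * Q n := by ring
      _ ≤ _ := Nat.mul_le_mul_right _ (Nat.le_add_right _ _)

variable {X : Type*} [MetricSpace X]

/-- The cross ratio of the growths at the points of a minimal attractor and a minimal repeller that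
are linked by an orbit. -/
theorem cross [CompactSpace X] {g : X ≃ₜ X} {c : ℝ} (h : LP g c) {A R : Set X}
    (hA : MinAtt g A) (hR : MinAtt g.symm R) (hd : Disjoint A R) (hRA : R ⊆ closure (Bas g A))
    (hAR : A ⊆ closure (Bas g.symm R)) {a' r' : X} (ha' : a' ∈ A) (hr' : r' ∈ R) :
    ∃ C : ℕ, ∀ n, ∀ a ∈ A, ∀ r ∈ R,
      n ^ 2 * (P g (c / 4) (c / 2) n a * P g.symm (c / 4) (c / 2) n r) ≤
        C * (P g (c / 4) (c / 2) n r' * P g.symm (c / 4) (c / 2) n a') := by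
  have hc := h.c_pos
  obtain ⟨K, j₂, h1⟩ := rep_ineq2 h hA hR hd hRA ha' hr'
  obtain ⟨K', j₂', h2⟩ := rep_ineq2 h.symm (A := R) (R := A) hR hA hd.symm hAR hr' ha'
  obtain ⟨Cu, hCu⟩ := submult_att h hA
  obtain ⟨Cs, hCs⟩ := submult_att h.symm hR
  obtain ⟨Gu, hGu⟩ := growth_att h hA
  obtain ⟨Gs, hGs⟩ := growth_att h.symm hR
  set j₀ := max j₂ j₂' + 1 with hj₀
  have k1 : j₂ ≤ j₀ := (le_max_left _ _).trans (Nat.le_succ _)
  have k2 : j₂' ≤ j₀ := (le_max_right _ _).trans (Nat.le_succ _)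
  have h3 := arith (u := fun n => P g (c / 4) (c / 2) n a')
    (s := fun n => P g.symm (c / 4) (c / 2) n r') (B := fun n => P g (c / 4) (c / 2) n r')
    (D := fun n => P g.symm (c / 4) (c / 2) n a') (fun n m => hCu a' ha' n m)
    (fun n m => hCs r' hr' n m) (h1 j₀ k1) (h2 j₀ k2)
  obtain ⟨C, hC⟩ := arith2 (W := fun n => P g (c / 4) (c / 2) n a' * P g.symm (c / 4) (c / 2) n r')
    (Q := fun n => P g (c / 4) (c / 2) n r' * P g.symm (c / 4) (c / 2) n a') (j₀ := j₀)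
    (by omega) (fun n => Nat.mul_pos (one_le_P g (by linarith) (by linarith) n r')
      (one_le_P g.symm (by linarith) (by linarith) n a')) h3
  refine ⟨Gu * Gs * C, fun n a ha r hr => ?_⟩
  calc n ^ 2 * (P g (c / 4) (c / 2) n a * P g.symm (c / 4) (c / 2) n r)
      ≤ n ^ 2 * ((Gu * P g (c / 4) (c / 2) n a') * (Gs * P g.symm (c / 4) (c / 2) n r')) :=
        Nat.mul_le_mul_left _ (Nat.mul_le_mul (hGu n a ha a' ha') (hGs n r hr r' hr'))
    _ = (Gu * Gs) * (n ^ 2 * (P g (c / 4) (c / 2) n a' * P g.symm (c / 4) (c / 2) n r')) := by ring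
    _ ≤ (Gu * Gs) * (C * (P g (c / 4) (c / 2) n r' * P g.symm (c / 4) (c / 2) n a')) :=
        Nat.mul_le_mul_left _ (hC n)
    _ = _ := by ring

/-- In a minimal repeller the stable sets do not grow faster than the unstable ones. -/
theorem stable_le_unstable [CompactSpace X] {g : X ≃ₜ X} {c : ℝ} (h : LP g c) {R : Set X}
    (hR : MinAtt g.symm R) {r : X} (hr : r ∈ R) : ∃ C : ℕ, ∀ n, ∀ v ∈ R,
      P g.symm (c / 4) (c / 2) n v ≤ C * P g (c / 4) (c / 2) n r := by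
  have hc := h.c_pos
  obtain ⟨N, hN⟩ := dual h hR hr (ε := c / 4) (η := c / 16) (δ := c / 2) (ε₀ := c / 4)
    (by linarith) (by linarith) (by linarith) (by linarith) (by linarith)
  obtain ⟨K₁, -, h1⟩ := P_shift h (ε := c / 4) (δ := 3 * c / 8) (by linarith) (by linarith)
    (by linarith) N
  obtain ⟨K₂, -, h2⟩ := P_chg h (ε := c / 4) (δ := 3 * c / 8) (δ' := c / 2) (by linarith)
    (by linarith) (by linarith) (by linarith)
  refine ⟨(N + 1) * (K₁ * K₂), fun n v hv => ?_⟩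
  obtain ⟨F, hF, hFc⟩ := P_att g.symm (c / 4) (show 0 < c / 2 by linarith) n v
  obtain ⟨F', h3, h4, h5⟩ := hN n v hv F hF
  have h6 : F'.card ≤ P g (c / 4) (3 * c / 8) (n + N) r :=
    P_le (by linarith) ⟨fun y hy => (h3 y hy).1, h4.mono (by linarith) le_rfl⟩
  calc P g.symm (c / 4) (c / 2) n v = F.card := hFc.symm
    _ ≤ (N + 1) * F'.card := h5
    _ ≤ (N + 1) * P g (c / 4) (3 * c / 8) (n + N) r := Nat.mul_le_mul_left _ h6
    _ ≤ (N + 1) * (K₁ * P g (c / 4) (3 * c / 8) n r) := Nat.mul_le_mul_left _ (h1 n r)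
    _ ≤ (N + 1) * (K₁ * (K₂ * P g (c / 4) (c / 2) n r)) :=
        Nat.mul_le_mul_left _ (Nat.mul_le_mul_left _ (h2 n r))
    _ = _ := by ring

end Pool.Agent.W5h91.GG
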