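import Pool.Agent.Y330.G.A7

/-!
# Growth of the local unstable sets of the points of a minimal attractor
-/

set_option autoImplicit false

open Filter Topology Set Metric

namespace Pool.Agent.W5h91.GG

open Pool.Agent.H789R2.AN Pool.Agent.Y330.G

variable {X : Type*} [MetricSpace X]

/-- Connecting orbits inside a minimal repeller, uniformly in both ends. -/
theorem conn2 [CompactSpace X] {g : X ≃ₜ X} {c : ℝ} (h : LP g c) {R : Set X}
    (hR : MinAtt g.symm R) {ε η : ℝ} (hε : 0 < ε) (hε1 : ε ≤ c) (hη : 0 < η) :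
    ∃ N : ℕ, ∀ r ∈ R, ∀ v ∈ R, ∃ J ≤ N, ∃ z : X, SR g.symm ε r z ∧ SR g η v (g^[J] z) := by
  have key : ∃ N : ℕ, ∀ r ∈ R ∩ R, ∀ v ∈ R, ∃ J ≤ N, ∃ z : X,
      SR g.symm ε r z ∧ SR g η v (g^[J] z) := by
    refine (hR.1.closed.isCompact).induction_on (p := fun S => ∃ N : ℕ, ∀ r ∈ S ∩ R, ∀ v ∈ R,
      ∃ J ≤ N, ∃ z : X, SR g.symm ε r z ∧ SR g η v (g^[J] z)) ?_ ?_ ?_ ?_
    · exact ⟨0, fun v hv => absurd hv.1 (notMem_empty v)⟩
    · rintro S T hST ⟨N, h1⟩
      exact ⟨N, fun v hv => h1 v ⟨hST hv.1, hv.2⟩⟩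
    · rintro S T ⟨N, h1⟩ ⟨N', h2⟩
      refine ⟨max N N', fun r hr v hv => ?_⟩
      rcases hr with ⟨hr | hr, hrR⟩
      · obtain ⟨J, hJ, h3⟩ := h1 r ⟨hr, hrR⟩ v hv
        exact ⟨J, hJ.trans (le_max_left _ _), h3⟩
      · obtain ⟨J, hJ, h3⟩ := h2 r ⟨hr, hrR⟩ v hv
        exact ⟨J, hJ.trans (le_max_right _ _), h3⟩
    · intro r hr
      obtain ⟨N, hN⟩ := conn_unif h hR hr (half_pos hε) (half_pos hη)
      obtain ⟨δ, hδ, hh⟩ := hol h (show 0 < min (ε / 2) (η / 2) from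
        lt_min (half_pos hε) (half_pos hη))
      refine ⟨ball r δ, mem_nhdsWithin_of_mem_nhds (ball_mem_nhds r hδ), N, fun r' hr' v hv => ?_⟩
      obtain ⟨J, hJ, z, hz1, hz2⟩ := hN v hv
      obtain ⟨z', h1, h2⟩ := hh (ε / 2) (by linarith) r r' z
        (by rw [dist_comm]; exact hr'.1) hz1
      refine ⟨J, hJ, z', h2.mono ?_, fun k => ?_⟩
      · have := min_le_left (ε / 2) (η / 2)
        linarith
      · have h3 := h1 (k + J)
        rw [Function.iterate_add_apply, Function.iterate_add_apply] at h3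
        have h4 := hz2 k
        have h5 := min_le_right (ε / 2) (η / 2)
        have := dist_triangle (g^[k] v) (g^[k] (g^[J] z)) (g^[k] (g^[J] z'))
        linarith
  obtain ⟨N, hN⟩ := key
  exact ⟨N, fun r hr => hN r ⟨hr, hr⟩⟩

/-- Connecting orbits inside a minimal attractor. -/
theorem connA [CompactSpace X] {g : X ≃ₜ X} {c : ℝ} (h : LP g c) {A : Set X}
    (hA : MinAtt g A) {ε η : ℝ} (hε : 0 < ε) (hη : 0 < η) (hη1 : η ≤ c) :
    ∃ N : ℕ, ∀ y ∈ A, ∀ x ∈ A, ∃ J ≤ N, ∃ z : X, SR g.symm ε y z ∧ SR g η x (g^[J] z) := by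
  obtain ⟨N, hN⟩ := conn2 h.symm (R := A) hA hη hη1 hε
  refine ⟨N, fun y hy x hx => ?_⟩
  obtain ⟨J, hJ, z, h1, h2⟩ := hN x hx y hy
  refine ⟨J, hJ, g.symm^[J] z, h2, ?_⟩
  rw [iterR]
  exact h1

/-- The growth of the local unstable sets of the points of a minimal attractor is uniform. -/
theorem growth_att [CompactSpace X] {g : X ≃ₜ X} {c : ℝ} (h : LP g c) {A : Set X}
    (hA : MinAtt g A) :
    ∃ C : ℕ, ∀ n, ∀ x ∈ A, ∀ y ∈ A, P g (c / 4) (c / 2) n x ≤ C * P g (c / 4) (c / 2) n y := by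
  classical
  have hc := h.c_pos
  obtain ⟨δ, hδ, hh⟩ := hol h (show 0 < c / 16 by linarith)
  obtain ⟨N, hN⟩ := connA h hA (ε := c) (η := min (δ / 2) c) hc (lt_min (half_pos hδ) hc)
    (min_le_right _ _)
  obtain ⟨J₀, hJ₀⟩ := pw (c := c) (show 0 < c / 8 by linarith)
  obtain ⟨K₁, -, h1⟩ := sep_short h (ε := c / 4) (δ := 3 * c / 8) (by linarith) (by linarith)
    (by linarith) (N + J₀)
  obtain ⟨K₂, -, h2⟩ := P_chg h (ε := c / 4) (δ := 3 * c / 8) (δ' := c / 2) (by linarith)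
    (by linarith) (by linarith) (by linarith)
  refine ⟨K₁ * K₂, fun n x hx y hy => ?_⟩
  obtain ⟨F, hF, hFc⟩ := P_att g (c / 4) (show 0 < c / 2 by linarith) n x
  obtain ⟨J, hJ, z, hz1, hz2⟩ := hN (g^[J₀] y) ((inv_iter hA.1.inv J₀ y).mpr hy) x hx
  have hxz : dist x (g^[J] z) < δ := by
    have := (hz2 0).trans (min_le_left _ _)
    simp only [Function.iterate_zero, id] at this
    linarith
  have hch : ∀ p, ∃ p', p ∈ F → SR g (c / 16) p p' ∧ SR g.symm (c / 4 + c / 16) (g^[J] z) p' := by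
    intro p
    by_cases hp : p ∈ F
    · obtain ⟨p', h3⟩ := hh (c / 4) (by linarith) x (g^[J] z) p hxz (hF.1 p hp)
      exact ⟨p', fun _ => h3⟩
    · exact ⟨p, fun h => absurd h hp⟩
  choose φ hφ using hch
  have hsep : ∀ p ∈ F, ∀ p' ∈ F, p ≠ p' → ∃ k ≤ n, 3 * c / 8 < dist (g^[k] (φ p)) (g^[k] (φ p')) := by
    intro p hp p' hp' hne
    obtain ⟨k, hk, h3⟩ := hF.2 p hp p' hp' hne
    refine ⟨k, hk, ?_⟩
    have h4 := (hφ p hp).1 k
    have h5 := (hφ p' hp').1 k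
    have := dist_triangle4_right (g^[k] p) (g^[k] p') (g^[k] (φ p)) (g^[k] (φ p'))
    linarith
  have hinj : Set.InjOn φ F := by
    intro p hp p' hp' he
    by_contra hne
    obtain ⟨k, -, hk⟩ := hsep p hp p' hp' hne
    rw [he, dist_self] at hk
    linarith
  have hs1 : Sep g (3 * c / 8) n (F.image φ) := by
    intro a ha b hb hab
    obtain ⟨p, hp, rfl⟩ := Finset.mem_image.mp ha
    obtain ⟨p', hp', rfl⟩ := Finset.mem_image.mp hb
    exact hsep p hp p' hp' fun e => hab (by rw [e])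
  have hs2 := sep_back hs1 (J + J₀)
  have hs3 : Sep g (3 * c / 8) (n + (N + J₀)) ((F.image φ).image (g.symm^[J + J₀])) :=
    hs2.mono le_rfl (by omega)
  have hu : ∀ q ∈ (F.image φ).image (g.symm^[J + J₀]), SR g.symm (c / 4) y q := by
    intro q hq
    obtain ⟨q', hq', rfl⟩ := Finset.mem_image.mp hq
    obtain ⟨p, hp, rfl⟩ := Finset.mem_image.mp hq'
    intro i
    have h3 := h.cU _ _ hz1 (i + J₀)
    have h4 := h.cU _ _ ((hφ p hp).2.mono (show c / 4 + c / 16 ≤ c by linarith)) (i + (J + J₀))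
    rw [bk' g (show J₀ ≤ i + J₀ by omega), Nat.add_sub_cancel] at h3
    have e : i + (J + J₀) - J = i + J₀ := by omega
    rw [bk' g (show J ≤ i + (J + J₀) by omega), e,
      Function.iterate_add_apply g.symm i (J + J₀) (φ p)] at h4
    have h5 := (pw_anti hc (show J₀ ≤ i + J₀ by omega)).trans hJ₀
    have h6 := (pw_anti hc (show J₀ ≤ i + (J + J₀) by omega)).trans hJ₀
    have := dist_triangle (g.symm^[i] y) (g.symm^[i + J₀] z) (g.symm^[i] (g.symm^[J + J₀] (φ p)))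
    linarith
  obtain ⟨F₁, h3, h4, h5⟩ := h1 n y _ hu hs3
  rw [Finset.card_image_of_injective _ (g.symm.injective.iterate _),
    Finset.card_image_of_injOn hinj] at h5
  calc P g (c / 4) (c / 2) n x = F.card := hFc.symm
    _ ≤ K₁ * F₁.card := h5
    _ ≤ K₁ * P g (c / 4) (3 * c / 8) n y :=
      Nat.mul_le_mul_left _ (P_le (by linarith) ⟨fun q hq => hu q (h3 hq), h4⟩)
    _ ≤ K₁ * (K₂ * P g (c / 4) (c / 2) n y) := Nat.mul_le_mul_left _ (h2 n y)
    _ = _ := by ring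

/-- The growth is submultiplicative at the points of a minimal attractor. -/
theorem submult_att [CompactSpace X] {g : X ≃ₜ X} {c : ℝ} (h : LP g c) {A : Set X}
    (hA : MinAtt g A) : ∃ K : ℕ, ∀ a ∈ A, ∀ n m : ℕ, P g (c / 4) (c / 2) (n + m) a ≤
      K * (P g (c / 4) (c / 2) n a * P g (c / 4) (c / 2) m a) := by
  classical
  have hc := h.c_pos
  obtain ⟨C, hC⟩ := growth_att h hA
  obtain ⟨K₁, -, j, h1⟩ := P_gen h (ε := c / 2) (ε' := c / 4) (δ := c / 2) (δ' := c / 2)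
    (by linarith) (by linarith) (by linarith) (by linarith) (by linarith) (by linarith)
  obtain ⟨K₂, -, h2⟩ := P_chg h (ε := c / 4) (δ := c / 4) (δ' := c / 2) (by linarith)
    (by linarith) (by linarith) (by linarith)
  refine ⟨K₁ * C * K₂, fun a ha n m => ?_⟩
  obtain ⟨F, hF, h3⟩ := P_att g (c / 4) (show 0 < c / 2 by linarith) (n + m) a
  rw [← h3]
  obtain ⟨F₁, hF₁, hs₁, hmax⟩ := exists_max_sep (g := g) (show 0 ≤ c / 4 by linarith) n F
  have hch : ∀ y, ∃ z, y ∈ F → z ∈ F₁ ∧ ∀ k ≤ n, dist (g^[k] y) (g^[k] z) ≤ c / 4 := by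
    intro y
    by_cases hy : y ∈ F
    · obtain ⟨z, h1, h2⟩ := hmax y hy
      exact ⟨z, fun _ => ⟨h1, h2⟩⟩
    · exact ⟨y, fun h => absurd h hy⟩
  choose φ hφ using hch
  have h4 : F.card ≤ (K₁ * (C * P g (c / 4) (c / 2) m a)) * F₁.card := by
    refine Finset.card_le_mul_card_image_of_maps_to (f := φ) (fun y hy => (hφ y hy).1) _ ?_
    intro z hz
    have hinj : Function.Injective (g^[n]) := g.injective.iterate n
    rw [← Finset.card_image_of_injective _ hinj]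
    have hzA : z ∈ A := hA.1.sat a ha z (WS.of_SR (h.cU _ _ ((hF.1 z (hF₁ hz)).mono (by linarith))))
    have hz' : g.symm^[j] (g^[n] z) ∈ A :=
      (inv_iter (inv_symm hA.1.inv) j _).mpr ((inv_iter hA.1.inv n z).mpr hzA)
    refine le_trans (P_le (g := g) (ε := c / 2) (δ := c / 2) (n := m) (x := g^[n] z)
      (by linarith) ?_) ((h1 m (g^[n] z)).trans (Nat.mul_le_mul_left _ (hC m _ hz' a ha)))
    constructor
    · intro b hb
      obtain ⟨y, hy, rfl⟩ := Finset.mem_image.mp hb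
      rw [Finset.mem_filter] at hy
      refine sr_of g (fun i hi => ?_) ?_
      · have h1 := (hφ y hy.1).2 i hi
        rw [hy.2] at h1
        rw [dist_comm]
        linarith
      · exact (sr_tr (hF.1 z (hF₁ hz)).symm' (hF.1 y hy.1)).mono (by linarith)
    · intro b hb b' hb' hab
      obtain ⟨y, hy, rfl⟩ := Finset.mem_image.mp hb
      obtain ⟨y', hy', rfl⟩ := Finset.mem_image.mp hb'
      rw [Finset.mem_filter] at hy hy'
      have hne : y ≠ y' := fun e => hab (by rw [e])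
      obtain ⟨k, hk, h5⟩ := hF.2 y hy.1 y' hy'.1 hne
      have hkn : n < k := by
        by_contra hcon
        push Not at hcon
        have h1 := (hφ y hy.1).2 k hcon
        have h2 := (hφ y' hy'.1).2 k hcon
        rw [hy.2] at h1
        rw [hy'.2] at h2
        have := dist_triangle_right (g^[k] y) (g^[k] y') (g^[k] z)
        linarith
      refine ⟨k - n, by omega, ?_⟩
      rw [← Function.iterate_add_apply, ← Function.iterate_add_apply]
      have e : k - n + n = k := by omega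
      rwa [e]
  have h5 : F₁.card ≤ P g (c / 4) (c / 4) n a :=
    P_le (by linarith) ⟨fun y hy => hF.1 y (hF₁ hy), hs₁⟩
  calc F.card ≤ (K₁ * (C * P g (c / 4) (c / 2) m a)) * F₁.card := h4
    _ ≤ (K₁ * (C * P g (c / 4) (c / 2) m a)) * (K₂ * P g (c / 4) (c / 2) n a) :=
      Nat.mul_le_mul_left _ (h5.trans (h2 n a))
    _ = _ := by ring

/-- Holonomies along the stable sets carry separated sets to separated sets. -/
theorem hol_P [CompactSpace X] {g : X ≃ₜ X} {c : ℝ} (h : LP g c) {η : ℝ} (hη : 0 < η) :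
    ∃ δ > 0, ∀ ε ≤ c, ∀ δ₁, 2 * η < δ₁ → ∀ (n : ℕ) (v v' : X), dist v v' < δ →
      P g ε δ₁ n v ≤ P g (ε + η) (δ₁ - 2 * η) n v' := by
  classical
  obtain ⟨δ, hδ, hh⟩ := hol h hη
  refine ⟨δ, hδ, fun ε hε δ₁ hδ₁ n v v' hv => ?_⟩
  obtain ⟨F, hF, hFc⟩ := P_att g ε (show 0 < δ₁ by linarith) n v
  have hch : ∀ p, ∃ p', p ∈ F → SR g η p p' ∧ SR g.symm (ε + η) v' p' := by
    intro p
    by_cases hp : p ∈ F
    · obtain ⟨p', h3⟩ := hh ε hε v v' p hv (hF.1 p hp)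
      exact ⟨p', fun _ => h3⟩
    · exact ⟨p, fun h => absurd h hp⟩
  choose φ hφ using hch
  have hsep : ∀ p ∈ F, ∀ p' ∈ F, p ≠ p' → ∃ k ≤ n, δ₁ - 2 * η < dist (g^[k] (φ p)) (g^[k] (φ p')) := by
    intro p hp p' hp' hne
    obtain ⟨k, hk, h3⟩ := hF.2 p hp p' hp' hne
    refine ⟨k, hk, ?_⟩
    have h4 := (hφ p hp).1 k
    have h5 := (hφ p' hp').1 k
    have := dist_triangle4_right (g^[k] p) (g^[k] p') (g^[k] (φ p)) (g^[k] (φ p'))
    linarith
  have hinj : Set.InjOn φ F := by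
    intro p hp p' hp' he
    by_contra hne
    obtain ⟨k, -, hk⟩ := hsep p hp p' hp' hne
    rw [he, dist_self] at hk
    linarith
  rw [← hFc, ← Finset.card_image_of_injOn hinj]
  apply P_le (by linarith)
  constructor
  · intro a ha
    obtain ⟨p, hp, rfl⟩ := Finset.mem_image.mp ha
    exact (hφ p hp).2
  · intro a ha b hb hab
    obtain ⟨p, hp, rfl⟩ := Finset.mem_image.mp ha
    obtain ⟨p', hp', rfl⟩ := Finset.mem_image.mp hb
    exact hsep p hp p' hp' fun e => hab (by rw [e])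

theorem back_P [CompactSpace X] (g : X ≃ₜ X) (ε : ℝ) {δ : ℝ} (hδ : 0 < δ) (τ n : ℕ) (x : X) :
    P g ε δ n (g^[τ] x) ≤ P g ε δ (n + τ) x := by
  classical
  obtain ⟨F, hF, hFc⟩ := P_att g ε hδ n (g^[τ] x)
  rw [← hFc, ← Finset.card_image_of_injective F (g.symm.injective.iterate τ)]
  apply P_le hδ
  refine ⟨fun y hy => ?_, sep_back hF.2 τ⟩
  obtain ⟨z, hz, rfl⟩ := Finset.mem_image.mp hy
  intro k
  have := hF.1 z hz (k + τ)
  rwa [Function.iterate_add_apply, iterL, Function.iterate_add_apply] at this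

/-- Lower bound for the growth in the basin of a minimal attractor. -/
theorem low_bas [CompactSpace X] {g : X ≃ₜ X} {c : ℝ} (h : LP g c) {A : Set X}
    (hA : MinAtt g A) {a : X} (ha : a ∈ A) {K : Set X} (hK : IsCompact K) (hKA : K ⊆ Bas g A) :
    ∃ C : ℕ, ∀ x ∈ K, ∀ n, P g (c / 4) (c / 2) n a ≤ C * P g (c / 4) (c / 2) n x := by
  have hc := h.c_pos
  obtain ⟨C₀, hC₀⟩ := growth_att h hA
  obtain ⟨K₁, -, j, h1⟩ := P_gen h (ε := c / 4) (ε' := c / 8) (δ := c / 2) (δ' := c / 2)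
    (by linarith) (by linarith) (by linarith) (by linarith) (by linarith) (by linarith)
  obtain ⟨K₂, -, h2⟩ := P_chg h (ε := c / 4) (δ := 3 * c / 8) (δ' := c / 2) (by linarith)
    (by linarith) (by linarith) (by linarith)
  obtain ⟨δ, hδ, hP⟩ := hol_P h (show 0 < c / 16 by linarith)
  have key : ∃ C : ℕ, ∀ x ∈ K ∩ K, ∀ n, P g (c / 4) (c / 2) n a ≤ C * P g (c / 4) (c / 2) n x := by
    refine hK.induction_on (p := fun S => ∃ C : ℕ, ∀ x ∈ S ∩ K, ∀ n,
      P g (c / 4) (c / 2) n a ≤ C * P g (c / 4) (c / 2) n x) ?_ ?_ ?_ ?_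
    · exact ⟨0, fun v hv => absurd hv.1 (notMem_empty v)⟩
    · rintro S T hST ⟨N, h1⟩
      exact ⟨N, fun v hv => h1 v ⟨hST hv.1, hv.2⟩⟩
    · rintro S T ⟨N, h1⟩ ⟨N', h2⟩
      refine ⟨max N N', fun r hr n => ?_⟩
      rcases hr with ⟨hr | hr, hrR⟩
      · exact (h1 r ⟨hr, hrR⟩ n).trans (Nat.mul_le_mul_right _ (le_max_left _ _))
      · exact (h2 r ⟨hr, hrR⟩ n).trans (Nat.mul_le_mul_right _ (le_max_right _ _))
    · intro x₀ hx₀
      obtain ⟨a₀, ha₀, hxa⟩ := hKA hx₀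
      obtain ⟨τ, hτ⟩ := hxa.eventually_lt (half_pos hδ)
      have h3 := hτ τ le_rfl
      have h4 : {y | dist (g^[τ] y) (g^[τ] x₀) < δ / 2} ∈ 𝓝 x₀ := by
        have hcont : Continuous fun s => dist (g^[τ] s) (g^[τ] x₀) :=
          (g.continuous.iterate τ).dist continuous_const
        exact (isOpen_lt hcont continuous_const).mem_nhds (by
          show dist (g^[τ] x₀) (g^[τ] x₀) < δ / 2
          rw [dist_self]; linarith)
      obtain ⟨K₃, -, h5⟩ := P_shift h (ε := c / 4) (δ := 3 * c / 8) (by linarith) (by linarith)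
        (by linarith) τ
      refine ⟨_, mem_nhdsWithin_of_mem_nhds h4, C₀ * (K₁ * (K₃ * K₂)), fun x hx n => ?_⟩
      have hx1 : dist (g^[τ] x) (g^[τ] x₀) < δ / 2 := hx.1
      have h6 : dist (g^[τ] a₀) (g^[τ] x) < δ := by
        have := dist_triangle (g^[τ] a₀) (g^[τ] x₀) (g^[τ] x)
        rw [dist_comm (g^[τ] a₀) (g^[τ] x₀), dist_comm (g^[τ] x₀) (g^[τ] x)] at this
        linarith
      have ha₁ : g^[τ] a₀ ∈ A := (inv_iter hA.1.inv τ a₀).mpr ha₀
      have ha₂ : g^[j] (g^[τ] a₀) ∈ A := (inv_iter hA.1.inv j _).mpr ha₁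
      have h7 := hP (c / 8) (by linarith) (c / 2) (by linarith) n _ _ h6
      have h8 := h1 n (g^[j] (g^[τ] a₀))
      rw [iterL] at h8
      have h9 : P g (c / 8 + c / 16) (c / 2 - 2 * (c / 16)) n (g^[τ] x) ≤
          P g (c / 4) (3 * c / 8) n (g^[τ] x) := by
        obtain ⟨F, hF, hFc⟩ := P_att g (c / 8 + c / 16) (show 0 < c / 2 - 2 * (c / 16) by linarith)
          n (g^[τ] x)
        rw [← hFc]
        exact P_le (by linarith) ⟨fun y hy => (hF.1 y hy).mono (by linarith),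
          hF.2.mono (by linarith) le_rfl⟩
      calc P g (c / 4) (c / 2) n a ≤ C₀ * P g (c / 4) (c / 2) n (g^[j] (g^[τ] a₀)) :=
            hC₀ n a ha _ ha₂
        _ ≤ C₀ * (K₁ * P g (c / 8) (c / 2) n (g^[τ] a₀)) := Nat.mul_le_mul_left _ h8
        _ ≤ C₀ * (K₁ * P g (c / 4) (3 * c / 8) n (g^[τ] x)) :=
            Nat.mul_le_mul_left _ (Nat.mul_le_mul_left _ (h7.trans h9))
        _ ≤ C₀ * (K₁ * P g (c / 4) (3 * c / 8) (n + τ) x) :=
            Nat.mul_le_mul_left _ (Nat.mul_le_mul_left _ (back_P g _ (by linarith) τ n x))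
        _ ≤ C₀ * (K₁ * (K₃ * P g (c / 4) (3 * c / 8) n x)) :=
            Nat.mul_le_mul_left _ (Nat.mul_le_mul_left _ (h5 n x))
        _ ≤ C₀ * (K₁ * (K₃ * (K₂ * P g (c / 4) (c / 2) n x))) :=
            Nat.mul_le_mul_left _ (Nat.mul_le_mul_left _ (Nat.mul_le_mul_left _ (h2 n x)))
        _ = _ := by ring
  obtain ⟨C, hC⟩ := key
  exact ⟨C, fun x hx => hC x ⟨hx, hx⟩⟩

end Pool.Agent.W5h91.GG
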