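import Pool.Agent.W5h91.GG.Abs
import Pool.Agent.Y330.G.A9
import Pool.Agent.Y321.PJ.Clos

/-!
# The gap law for Anosov diffeomorphisms
-/

set_option autoImplicit false
set_option linter.unusedSectionVars false

open Filter Topology Set Metric
open scoped Manifold ContDiff

namespace Pool.Agent.W5h91.GG

open Pool.Agent.H789R2.AN Pool.Agent.H721R2 Pool.Agent.Y330.G

section per

variable {X E : Type*} [MetricSpace X] [NormedAddCommGroup E] [NormedSpace ℝ E]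

/-- Near every closed invariant set there are periodic points. -/
theorem per_near [CompactSpace X] (S : HypSys X E) {c : ℝ} (h : LP S.g c)
    {K : Set X} (hne : K.Nonempty) (hinv : ∀ x ∈ K, S.g x ∈ K) {δ : ℝ} (hδ : 0 < δ) :
    ∃ q ≥ 1, ∃ p, S.g^[q] p = p ∧ ∃ x ∈ K, dist p x < δ := by
  obtain ⟨ε₀, hε₀, hsh⟩ := Y321.PJ.per_shadow S h
  have hK0 : 0 < S.K := by have := S.one_le_K; linarith
  set ε := min ε₀ (δ / (16 * S.K)) with hε
  have hε0 : 0 < ε := lt_min hε₀ (by positivity)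
  have hε1 : 8 * S.K * ε < δ := by
    have : ε ≤ δ / (16 * S.K) := min_le_right _ _
    rw [le_div_iff₀ (by positivity)] at this
    nlinarith
  obtain ⟨x, hx⟩ := hne
  have hmem : ∀ n, S.g^[n] x ∈ K := by
    intro n
    induction n with
    | zero => exact hx
    | succ n ih => rw [Function.iterate_succ_apply']; exact hinv _ ih
  obtain ⟨y, -, φ, hφ, hlim⟩ := isCompact_univ.tendsto_subseq
    (x := fun n : ℕ => S.g^[n] x) fun n => mem_univ _
  obtain ⟨N, hN⟩ := Metric.tendsto_atTop.mp hlim (ε / 2) (half_pos hε0)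
  have h2 : dist (S.g^[φ N] x) y < ε / 2 := hN N le_rfl
  have h3 : dist (S.g^[φ (N + 1)] x) y < ε / 2 := hN (N + 1) (Nat.le_succ N)
  have hlt : φ N < φ (N + 1) := hφ (Nat.lt_succ_self N)
  have hd : dist (S.g^[φ (N + 1)] x) (S.g^[φ N] x) ≤ ε := by
    have := dist_triangle_right (S.g^[φ (N + 1)] x) (S.g^[φ N] x) y
    linarith
  obtain ⟨p, hp, hpd⟩ := hsh ε (min_le_left _ _) (φ (N + 1) - φ N)
    (fun k => S.g^[φ N + k] x) (by omega) (by
      intro k _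
      have e : φ N + (k + 1) = (φ N + k) + 1 := by omega
      show dist (S.g (S.g^[φ N + k] x)) (S.g^[φ N + (k + 1)] x) ≤ ε
      rw [e, Function.iterate_succ_apply', dist_self]
      exact hε0.le) (by
      show dist (S.g (S.g^[φ N + (φ (N + 1) - φ N - 1)] x)) (S.g^[φ N + 0] x) ≤ ε
      rw [← Function.iterate_succ_apply' S.g]
      have e : (φ N + (φ (N + 1) - φ N - 1)).succ = φ (N + 1) := by omega
      rw [e, add_zero]
      exact hd)
  refine ⟨φ (N + 1) - φ N, by omega, p, hp, S.g^[φ N] x, hmem _, ?_⟩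
  have h4 : dist (S.g^[0] p) (S.g^[φ N + 0] x) ≤ 8 * S.K * ε := hpd 0 (by omega)
  simp only [Function.iterate_zero, id, add_zero] at h4
  linarith

theorem per_att [CompactSpace X] (S : HypSys X E) {c : ℝ} (h : LP S.g c) {A : Set X}
    (hA : IsAtt S.g A) : ∃ p ∈ A, ∃ q ≥ 1, S.g^[q] p = p := by
  obtain ⟨δ, hδ, hn⟩ := h.near
  obtain ⟨q, hq, p, hp, x, hx, hd⟩ := per_near S h hA.nonempty (fun x hx => (hA.inv x).mpr hx) hδ
  obtain ⟨z, hz, hpz⟩ := hn A hA x hx p hd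
  exact ⟨p, Y321.PJ.per_mem h hA hq hp hz hpz, q, hq, hp⟩

theorem per_rep [CompactSpace X] (S : HypSys X E) {c : ℝ} (h : LP S.g c) {R : Set X}
    (hR : IsAtt S.g.symm R) : ∃ p ∈ R, ∃ q ≥ 1, S.g^[q] p = p := by
  obtain ⟨δ, hδ, hn⟩ := h.symm.near
  obtain ⟨q, hq, p, hp, x, hx, hd⟩ := per_near S h hR.nonempty
    (fun x hx => by rw [← hR.inv (S.g x), S.g.symm_apply_apply]; exact hx) hδ
  obtain ⟨z, hz, hpz⟩ := hn R hR x hx p hd
  have hp' : S.g.symm^[q] p = p := by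
    conv_lhs => rw [← hp]
    rw [iterL]
  exact ⟨p, Y321.PJ.per_mem h.symm hR hq hp' hz hpz, q, hq, hp⟩

end per

section two

variable {X Y : Type*} [MetricSpace X] [CompactSpace X] [MetricSpace Y] [CompactSpace Y]

/-- Comparison of the growths for `f` at small scales with the growths for the power. -/
theorem transfer {φ : X ≃ₜ Y} {f : X ≃ₜ X} {f' : Y ≃ₜ Y} (hφ : ∀ x, φ (f x) = f' (φ x)) {N : ℕ}
    (hN : 1 ≤ N) {c : ℝ} (h : LP (iterHomeo f' N) c) :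
    ∃ r > 0, ∀ ε > 0, ε ≤ r → ∀ δ > 0, δ ≤ r → ∃ K j : ℕ, ∀ n x,
      P f ε δ n x ≤ K * P (iterHomeo f' N) (c / 4) (c / 2) (n / N) (φ x) ∧
      P (iterHomeo f' N) (c / 4) (c / 2) (n / N) ((iterHomeo f' N)^[j] (φ x)) ≤
        K * P f ε δ n x := by
  have hc := h.c_pos
  obtain ⟨r, hr, hr1⟩ := one_uc φ (show 0 < c / 4 by linarith)
  refine ⟨r, hr, fun ε hε0 hε δ hδ0 hδ => ?_⟩
  have hδ1 : ∀ a b : X, dist a b ≤ δ → dist (φ a) (φ b) ≤ c / 2 := fun a b hab =>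
    (hr1 a b (hab.trans hδ)).trans (by linarith)
  have hε1 : ∀ a b : X, dist a b ≤ ε → dist (φ a) (φ b) ≤ c / 4 := fun a b hab =>
    hr1 a b (hab.trans hε)
  obtain ⟨ε', hε'0, hA⟩ := cmpA hφ hN hδ0 hδ1 hε0
  obtain ⟨δ', hδ'0, hB⟩ := cmpB hφ hN hε1 hδ0
  have hA' : ∀ (m : ℕ) (x : X), P (iterHomeo f' N) (min ε' (c / 4)) (c / 2) m (φ x) ≤
      P f ε δ (N * m) x := by
    intro m x
    refine le_trans ?_ (hA m x)
    obtain ⟨F, hF, h1⟩ := P_att (iterHomeo f' N) (min ε' (c / 4)) (show 0 < c / 2 by linarith) m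
      (φ x)
    rw [← h1]
    exact P_le (by linarith) ⟨fun y hy => (hF.1 y hy).mono (min_le_left _ _), hF.2⟩
  have hm0 : 0 < min ε' (c / 4) := lt_min hε'0 (by linarith)
  have hm1 : min ε' (c / 4) ≤ c / 4 := min_le_right _ _
  obtain ⟨K₁, -, j₁, h1⟩ := P_gen h (ε := c / 4) (ε' := min ε' (c / 4)) (δ := c / 2)
    (δ' := c / 2) (by linarith) hm0 (by linarith) (by linarith) (by linarith) (by linarith)
  obtain ⟨K₂, -, h2⟩ := P_chg h (ε := c / 4) (δ := δ') (δ' := c / 2) (by linarith) hδ'0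
    (by linarith) (by linarith)
  refine ⟨max K₁ K₂, j₁, fun n x => ⟨?_, ?_⟩⟩
  · exact ((hB n x).trans (h2 (n / N) (φ x))).trans (Nat.mul_le_mul_right _ (le_max_right _ _))
  · have h6 := h1 (n / N) ((iterHomeo f' N)^[j₁] (φ x))
    rw [iterL] at h6
    have h7 := hA' (n / N) x
    have h8 := P_mono_n (g := f) (ε := ε) hδ0 (Nat.mul_div_le n N) x
    exact h6.trans (Nat.mul_le_mul (le_max_left _ _) (h7.trans h8))

/-- transitivity of conjugate maps -/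
theorem trans_conj {φ : X ≃ₜ Y} {f : X ≃ₜ X} {f' : Y ≃ₜ Y} (hφ : ∀ x, φ (f x) = f' (φ x)) :
    TopTransitive f ↔ TopTransitive f' := by
  constructor
  · intro ht U V hU hUn hV hVn
    obtain ⟨n, _, ⟨x, hx, rfl⟩, hy⟩ := ht (φ ⁻¹' U) (φ ⁻¹' V) (hU.preimage φ.continuous)
      (hUn.preimage φ.surjective) (hV.preimage φ.continuous) (hVn.preimage φ.surjective)
    refine ⟨n, φ (f^[n] x), ⟨φ x, hx, (conj_iter hφ n x).symm⟩, hy⟩
  · intro ht U V hU hUn hV hVn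
    obtain ⟨n, _, ⟨x, hx, rfl⟩, hy⟩ := ht (φ.symm ⁻¹' U) (φ.symm ⁻¹' V)
      (hU.preimage φ.symm.continuous) (hUn.preimage φ.symm.surjective)
      (hV.preimage φ.symm.continuous) (hVn.preimage φ.symm.surjective)
    refine ⟨n, φ.symm (f'^[n] x), ⟨φ.symm x, hx, ?_⟩, hy⟩
    apply φ.injective
    rw [conj_iter hφ, φ.apply_symm_apply, φ.apply_symm_apply]

/-- the transitive case -/
theorem trans_case [ConnectedSpace X] {φ : X ≃ₜ Y} {f : X ≃ₜ X} {f' : Y ≃ₜ Y}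
    (hφ : ∀ x, φ (f x) = f' (φ x)) {N : ℕ} (hN : 1 ≤ N) {c : ℝ} (h : LP (iterHomeo f' N) c)
    {ε δ : ℝ} {K j K' j' : ℕ} (h1 : ∀ n x,
      P f ε δ n x ≤ K * P (iterHomeo f' N) (c / 4) (c / 2) (n / N) (φ x) ∧
      P (iterHomeo f' N) (c / 4) (c / 2) (n / N) ((iterHomeo f' N)^[j] (φ x)) ≤ K * P f ε δ n x)
    (h2 : ∀ n x,
      P f.symm ε δ n x ≤ K' * P (iterHomeo f' N).symm (c / 4) (c / 2) (n / N) (φ x) ∧
      P (iterHomeo f' N).symm (c / 4) (c / 2) (n / N) ((iterHomeo f' N).symm^[j'] (φ x)) ≤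
        K' * P f.symm ε δ n x) (ht : TopTransitive f) :
    ∃ C : ℕ, ∀ n x y, P f ε δ n x ≤ C * P f ε δ n y ∧ P f ε δ n x ≤ C * P f.symm ε δ n y ∧
      P f.symm ε δ n x ≤ C * P f ε δ n y ∧ P f.symm ε δ n x ≤ C * P f.symm ε δ n y := by
  have hY : ConnectedSpace Y := φ.surjective.connectedSpace φ.continuous
  have hS := (trans_iff hN h).mp ((trans_conj hφ).mp ht)
  have hS' := no_rep h hS
  set g := iterHomeo f' N with hg
  have hU : IsAtt g (univ : Set Y) := ⟨isClosed_univ, univ_nonempty, fun _ => by simp,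
    fun _ _ _ _ => mem_univ _⟩
  have hU' : IsAtt g.symm (univ : Set Y) := ⟨isClosed_univ, univ_nonempty, fun _ => by simp,
    fun _ _ _ _ => mem_univ _⟩
  have hA : MinAtt g (univ : Set Y) := ⟨hU, fun B hB _ => by rw [hS B hB]⟩
  have hR : MinAtt g.symm (univ : Set Y) := ⟨hU', fun B hB _ => by rw [hS' B hB]⟩
  obtain ⟨C₁, k1⟩ := growth_att h hA
  obtain ⟨C₂, k2⟩ := growth_att h.symm hR
  obtain ⟨y₀⟩ : Nonempty Y := inferInstance
  obtain ⟨C₃, k3⟩ := stable_le_unstable h hR (mem_univ y₀)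
  obtain ⟨C₄, k4⟩ := stable_le_unstable h.symm (R := univ) hA (mem_univ y₀)
  have m1 : ∀ n x y, P g (c / 4) (c / 2) n x ≤ C₁ * P g (c / 4) (c / 2) n y :=
    fun n x y => k1 n x (mem_univ _) y (mem_univ _)
  have m2 : ∀ n x y, P g.symm (c / 4) (c / 2) n x ≤ C₂ * P g.symm (c / 4) (c / 2) n y :=
    fun n x y => k2 n x (mem_univ _) y (mem_univ _)
  have m3 : ∀ n x y, P g.symm (c / 4) (c / 2) n x ≤ (C₃ * C₁) * P g (c / 4) (c / 2) n y := by
    intro n x y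
    calc _ ≤ C₃ * P g (c / 4) (c / 2) n y₀ := k3 n x (mem_univ _)
      _ ≤ C₃ * (C₁ * P g (c / 4) (c / 2) n y) := Nat.mul_le_mul_left _ (m1 n y₀ y)
      _ = _ := by ring
  have m4 : ∀ n x y, P g (c / 4) (c / 2) n x ≤ (C₄ * C₂) * P g.symm (c / 4) (c / 2) n y := by
    intro n x y
    calc _ ≤ C₄ * P g.symm (c / 4) (c / 2) n y₀ := k4 n x (mem_univ _)
      _ ≤ C₄ * (C₂ * P g.symm (c / 4) (c / 2) n y) := Nat.mul_le_mul_left _ (m2 n y₀ y)
      _ = _ := by ring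
  refine ⟨max (max (K * (C₁ * K)) (K * (C₄ * C₂ * K'))) (max (K' * (C₃ * C₁ * K))
    (K' * (C₂ * K'))), fun n x y => ⟨?_, ?_, ?_, ?_⟩⟩
  · refine le_trans ?_ (Nat.mul_le_mul_right _ ((le_max_left _ _).trans (le_max_left _ _)))
    calc _ ≤ K * _ := (h1 n x).1
      _ ≤ K * (C₁ * _) := Nat.mul_le_mul_left _ (m1 _ _ (g^[j] (φ y)))
      _ ≤ K * (C₁ * (K * _)) := Nat.mul_le_mul_left _ (Nat.mul_le_mul_left _ (h1 n y).2)
      _ = _ := by ring
  · refine le_trans ?_ (Nat.mul_le_mul_right _ ((le_max_right _ _).trans (le_max_left _ _)))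
    calc _ ≤ K * _ := (h1 n x).1
      _ ≤ K * (C₄ * C₂ * _) := Nat.mul_le_mul_left _ (m4 _ _ (g.symm^[j'] (φ y)))
      _ ≤ K * (C₄ * C₂ * (K' * _)) := Nat.mul_le_mul_left _ (Nat.mul_le_mul_left _ (h2 n y).2)
      _ = _ := by ring
  · refine le_trans ?_ (Nat.mul_le_mul_right _ ((le_max_left _ _).trans (le_max_right _ _)))
    calc _ ≤ K' * _ := (h2 n x).1
      _ ≤ K' * (C₃ * C₁ * _) := Nat.mul_le_mul_left _ (m3 _ _ (g^[j] (φ y)))
      _ ≤ K' * (C₃ * C₁ * (K * _)) := Nat.mul_le_mul_left _ (Nat.mul_le_mul_left _ (h1 n y).2)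
      _ = _ := by ring
  · refine le_trans ?_ (Nat.mul_le_mul_right _ ((le_max_right _ _).trans (le_max_right _ _)))
    calc _ ≤ K' * _ := (h2 n x).1
      _ ≤ K' * (C₂ * _) := Nat.mul_le_mul_left _ (m2 _ _ (g.symm^[j'] (φ y)))
      _ ≤ K' * (C₂ * (K' * _)) := Nat.mul_le_mul_left _ (Nat.mul_le_mul_left _ (h2 n y).2)
      _ = _ := by ring

/-- the nontransitive case -/
theorem gap_case {φ : X ≃ₜ Y} {f : X ≃ₜ X} {f' : Y ≃ₜ Y} {N : ℕ} (hN : 1 ≤ N) {c : ℝ}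
    (h : LP (iterHomeo f' N) c) {ε δ : ℝ} {K j K' j' : ℕ} (h1 : ∀ n x,
      P f ε δ n x ≤ K * P (iterHomeo f' N) (c / 4) (c / 2) (n / N) (φ x) ∧
      P (iterHomeo f' N) (c / 4) (c / 2) (n / N) ((iterHomeo f' N)^[j] (φ x)) ≤ K * P f ε δ n x)
    (h2 : ∀ n x,
      P f.symm ε δ n x ≤ K' * P (iterHomeo f' N).symm (c / 4) (c / 2) (n / N) (φ x) ∧
      P (iterHomeo f' N).symm (c / 4) (c / 2) (n / N) ((iterHomeo f' N).symm^[j'] (φ x)) ≤
        K' * P f.symm ε δ n x)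
    {A R : Set Y} (hA : MinAtt (iterHomeo f' N) A) (hR : MinAtt (iterHomeo f' N).symm R)
    (hd : Disjoint A R) (hRA : R ⊆ closure (Bas (iterHomeo f' N) A))
    (hAR : A ⊆ closure (Bas (iterHomeo f' N).symm R)) {a b : X} (ha : φ a ∈ A) (hb : φ b ∈ R) :
    ∃ C : ℕ, ∀ n, n ^ 2 * (P f ε δ n a * P f.symm ε δ n b) ≤
      C * (P f ε δ n b * P f.symm ε δ n a) := by
  have hc := h.c_pos
  set g := iterHomeo f' N with hg
  have ha' : g.symm^[j'] (φ a) ∈ A := (inv_iter (inv_symm hA.1.inv) j' _).mpr ha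
  have hb' : g^[j] (φ b) ∈ R := (inv_iter
    (fun x => by rw [← hR.1.inv (g x), g.symm_apply_apply]) j _).mpr hb
  obtain ⟨C, hC⟩ := cross h hA hR hd hRA hAR ha' hb'
  set W : ℕ → ℕ := fun m => P g (c / 4) (c / 2) m (φ a) * P g.symm (c / 4) (c / 2) m (φ b) with hW
  set Q : ℕ → ℕ := fun m => P g (c / 4) (c / 2) m (g^[j] (φ b)) *
    P g.symm (c / 4) (c / 2) m (g.symm^[j'] (φ a)) with hQ
  have hQ1 : ∀ m, 1 ≤ Q m := fun m => Nat.mul_pos
    (one_le_P g (by linarith) (by linarith) m _) (one_le_P g.symm (by linarith) (by linarith) m _)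
  have h3 : ∀ m, (m + 1) ^ 2 * W m ≤ (4 * C + W 0) * Q m := by
    intro m
    rcases Nat.eq_zero_or_pos m with rfl | hm
    · calc (0 + 1) ^ 2 * W 0 = W 0 * 1 := by ring
        _ ≤ (4 * C + W 0) * Q 0 := Nat.mul_le_mul (Nat.le_add_left _ _) (hQ1 0)
    · have h4 := hC m _ ha _ hb
      calc (m + 1) ^ 2 * W m ≤ (2 * m) ^ 2 * W m :=
            Nat.mul_le_mul_right _ (Nat.pow_le_pow_left (by omega) 2)
        _ = 4 * (m ^ 2 * W m) := by ring
        _ ≤ 4 * (C * Q m) := Nat.mul_le_mul_left _ h4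
        _ = (4 * C) * Q m := by ring
        _ ≤ _ := Nat.mul_le_mul_right _ (Nat.le_add_right _ _)
  refine ⟨N ^ 2 * (K * K') * (4 * C + W 0) * (K * K'), fun n => ?_⟩
  have h4 : n ≤ N * (n / N + 1) := by
    have := Nat.lt_mul_div_succ n (show 0 < N by omega)
    exact this.le
  calc n ^ 2 * (P f ε δ n a * P f.symm ε δ n b)
      ≤ (N * (n / N + 1)) ^ 2 * ((K * P g (c / 4) (c / 2) (n / N) (φ a)) *
        (K' * P g.symm (c / 4) (c / 2) (n / N) (φ b))) :=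
        Nat.mul_le_mul (Nat.pow_le_pow_left h4 2) (Nat.mul_le_mul (h1 n a).1 (h2 n b).1)
    _ = N ^ 2 * (K * K') * ((n / N + 1) ^ 2 * W (n / N)) := by rw [hW]; ring
    _ ≤ N ^ 2 * (K * K') * ((4 * C + W 0) * Q (n / N)) := Nat.mul_le_mul_left _ (h3 _)
    _ ≤ N ^ 2 * (K * K') * ((4 * C + W 0) * ((K * P f ε δ n b) * (K' * P f.symm ε δ n a))) :=
        Nat.mul_le_mul_left _ (Nat.mul_le_mul_left _ (Nat.mul_le_mul (h1 n b).2 (h2 n a).2))
    _ = _ := by ring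

end two

section manifold

variable {E : Type*} [NormedAddCommGroup E] [NormedSpace ℝ E] [FiniteDimensional ℝ E]

universe u

/-- Every Anosov diffeomorphism has a power with local product structure for some metric; moreover
the attractors and the repellers contain periodic points. -/
theorem exists_model2 {M : Type u} [TopologicalSpace M] [T2Space M] [CompactSpace M]
    [ChartedSpace E M] [IsManifold 𝓘(ℝ, E) ∞ M] (f : Diffeomorph 𝓘(ℝ, E) 𝓘(ℝ, E) M M 1)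
    (Es Eu : ∀ x : M, Submodule ℝ (TangentSpace 𝓘(ℝ, E) x)) (hA : IsAnosov f Es Eu) :
    ∃ (Y : Type u) (_ : MetricSpace Y) (_ : CompactSpace Y) (φ : M ≃ₜ Y) (f' : Y ≃ₜ Y) (N : ℕ)
      (c : ℝ), (∀ x, φ (f x) = f' (φ x)) ∧ 1 ≤ N ∧ LP (iterHomeo f' N) c ∧
      (∀ A, IsAtt (iterHomeo f' N) A → ∃ p ∈ A, ∃ q ≥ 1, f'^[q] p = p) ∧
      (∀ R, IsAtt (iterHomeo f' N).symm R → ∃ p ∈ R, ∃ q ≥ 1, f'^[q] p = p) := by
  obtain ⟨m, e, he, hemb, hinj⟩ := exists_embedding_euclidean_of_compact (I := 𝓘(ℝ, E)) (M := M)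
  let iY : MetricSpace M := hemb.isEmbedding.comapMetricSpace e
  have hiso : ∀ x y : M, dist x y = ‖e x - e y‖ := fun x y => dist_eq_norm (e x) (e y)
  have he1 : ContMDiff 𝓘(ℝ, E) (𝓡 m) 1 e := he.of_le (by simp)
  obtain ⟨N, S, hN, hg, -⟩ := exists_sys_pos hiso he1 hinj f Es Eu hA 1
  obtain ⟨c, hc⟩ := exists_LP S
  have k1 := fun A (hA : IsAtt S.g A) => per_att S hc hA
  have k2 := fun R (hR : IsAtt S.g.symm R) => per_rep S hc hR
  rw [hg] at hc k1 k2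
  refine ⟨M, iY, inferInstance, Homeomorph.refl M, f.toHomeomorph, N, c, fun _ => rfl, hN, hc,
    fun A hA => ?_, fun R hR => ?_⟩
  · obtain ⟨p, hp, q, hq, h⟩ := k1 A hA
    rw [ith_iter] at h
    exact ⟨p, hp, N * q, Nat.mul_pos hN hq, h⟩
  · obtain ⟨p, hp, q, hq, h⟩ := k2 R hR
    rw [ith_iter] at h
    exact ⟨p, hp, N * q, Nat.mul_pos hN hq, h⟩

/-- **The gap law.** -/
theorem man_gap {M : Type u} [MetricSpace M] [CompactSpace M] [ConnectedSpace M]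
    [ChartedSpace E M] [IsManifold 𝓘(ℝ, E) ∞ M] (f : Diffeomorph 𝓘(ℝ, E) 𝓘(ℝ, E) M M 1)
    (Es Eu : ∀ x : M, Submodule ℝ (TangentSpace 𝓘(ℝ, E) x)) (hA : IsAnosov f Es Eu) :
    ∃ r > 0,
      (TopTransitive f → ∀ ε > 0, ε ≤ r → ∀ δ > 0, δ ≤ r → ∃ C : ℕ, ∀ n x y,
        P f.toHomeomorph ε δ n x ≤ C * P f.toHomeomorph ε δ n y ∧
        P f.toHomeomorph ε δ n x ≤ C * P f.toHomeomorph.symm ε δ n y ∧
        P f.toHomeomorph.symm ε δ n x ≤ C * P f.toHomeomorph ε δ n y ∧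
        P f.toHomeomorph.symm ε δ n x ≤ C * P f.toHomeomorph.symm ε δ n y) ∧
      (¬ TopTransitive f → ∃ a ∈ Function.periodicPts f, ∃ b ∈ Function.periodicPts f,
        ∀ ε > 0, ε ≤ r → ∀ δ > 0, δ ≤ r → ∃ C : ℕ, ∀ n,
        n ^ 2 * (P f.toHomeomorph ε δ n a * P f.toHomeomorph.symm ε δ n b) ≤
          C * (P f.toHomeomorph ε δ n b * P f.toHomeomorph.symm ε δ n a)) := by
  obtain ⟨Y, iY, cY, φ, f', N, c, hφ, hN, hc, k1, k2⟩ := exists_model2 f Es Eu hA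
  have hY : ConnectedSpace Y := φ.surjective.connectedSpace φ.continuous
  have hφ1 : ∀ x, φ (f.toHomeomorph x) = f' (φ x) := hφ
  have hc' : LP (iterHomeo f'.symm N) c := by
    rw [← ith_symm]
    exact hc.symm
  obtain ⟨r₁, hr₁, t1⟩ := transfer hφ1 hN hc
  obtain ⟨r₂, hr₂, t2⟩ := transfer (conj_symm hφ1) hN hc'
  refine ⟨min r₁ r₂, lt_min hr₁ hr₂, fun ht ε hε0 hε δ hδ0 hδ => ?_, fun ht => ?_⟩
  · obtain ⟨K, j, h1⟩ := t1 ε hε0 (hε.trans (min_le_left _ _)) δ hδ0 (hδ.trans (min_le_left _ _))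
    obtain ⟨K', j', h2⟩ := t2 ε hε0 (hε.trans (min_le_right _ _)) δ hδ0
      (hδ.trans (min_le_right _ _))
    rw [← ith_symm] at h2
    exact trans_case hφ1 hN hc h1 h2 ht
  · have hn : ¬ ∀ S, IsAtt (iterHomeo f' N) S → S = univ := by
      intro hS
      exact ht ((trans_conj hφ1).mpr ((trans_iff hN hc).mpr hS))
    obtain ⟨A, R, hA, hR, hd, hRA, hAR⟩ := exists_pair hc hn
    obtain ⟨p, hp, q, hq, hpq⟩ := k1 A hA.1
    obtain ⟨p', hp', q', hq', hpq'⟩ := k2 R hR.1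
    have hper : ∀ (y : Y) (q : ℕ), 1 ≤ q → f'^[q] y = y → φ.symm y ∈ Function.periodicPts f := by
      intro y q hq hy
      refine ⟨q, hq, ?_⟩
      show f^[q] (φ.symm y) = φ.symm y
      apply φ.injective
      have := conj_iter hφ1 q (φ.symm y)
      rw [φ.apply_symm_apply, hy] at this
      rw [φ.apply_symm_apply]
      exact this
    refine ⟨φ.symm p, hper p q hq hpq, φ.symm p', hper p' q' hq' hpq',
      fun ε hε0 hε δ hδ0 hδ => ?_⟩
    obtain ⟨K, j, h1⟩ := t1 ε hε0 (hε.trans (min_le_left _ _)) δ hδ0 (hδ.trans (min_le_left _ _))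
    obtain ⟨K', j', h2⟩ := t2 ε hε0 (hε.trans (min_le_right _ _)) δ hδ0
      (hδ.trans (min_le_right _ _))
    rw [← ith_symm] at h2
    exact gap_case hN hc h1 h2 hA hR hd hRA hAR (by rwa [φ.apply_symm_apply])
      (by rwa [φ.apply_symm_apply])

end manifold

end Pool.Agent.W5h91.GG
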