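import Pool.Agent.W5h91.GG.Att

/-!
# Orbits that follow a repeller and then an attractor
-/

set_option autoImplicit false

open Filter Topology Set Metric

namespace Pool.Agent.W5h91.GG

open Pool.Agent.H789R2.AN Pool.Agent.Y330.G

variable {X : Type*} [MetricSpace X]

/-- A minimal repeller that meets a minimal attractor is contained in it. -/
theorem rep_subset [CompactSpace X] {g : X ≃ₜ X} {c : ℝ} (h : LP g c) {A R : Set X}
    (hA : MinAtt g A) (hR : MinAtt g.symm R) (hne : (A ∩ R).Nonempty) : R ⊆ A := by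
  obtain ⟨a, haA, haR⟩ := hne
  have h1 : ∀ v ∈ R, v ∈ Bas g A := by
    intro v hv
    obtain ⟨J, z, hz1, hz2⟩ := conn h hR haR (ε := c) (η := c) h.c_pos h.c_pos hv
    refine ⟨g^[J] z, ?_, WS.of_SR (h.cS _ _ hz2)⟩
    exact (inv_iter hA.1.inv J z).mpr (hA.1.sat a haA z (WS.of_SR (h.cU _ _ hz1)))
  intro v hv
  by_contra hvA
  obtain ⟨w, hw, hvw⟩ := exists_repeller h hA.1 hvA
  obtain ⟨y, -, φ, hφ, hlim⟩ := isCompact_univ.tendsto_subseq
    (x := fun n : ℕ => g.symm^[n] v) fun n => mem_univ _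
  have hyR : y ∈ R := hR.1.closed.mem_of_tendsto hlim
    (Eventually.of_forall fun n => (inv_iter hR.1.inv _ v).mpr hv)
  have h3 : Tendsto (fun n => dist (g.symm^[φ n] v) (g.symm^[φ n] w)) atTop (𝓝 0) :=
    Tendsto.comp (g := fun n : ℕ => dist (g.symm^[n] v) (g.symm^[n] w)) hvw hφ.tendsto_atTop
  have hlim2 : Tendsto (fun n => g.symm^[φ n] w) atTop (𝓝 y) := hlim.congr_dist h3
  have hc : IsClosed (Bas g A)ᶜ := (isOpen_bas h hA.1).isClosed_compl
  have hinv : ∀ x, g.symm x ∈ (Bas g A)ᶜ ↔ x ∈ (Bas g A)ᶜ := fun x => by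
    rw [mem_compl_iff, mem_compl_iff, bas_map (φ := g.symm) (fun x => by simp)
      (inv_symm hA.1.inv)]
  have hy : y ∈ (Bas g A)ᶜ := hc.mem_of_tendsto hlim2
    (Eventually.of_forall fun n => (inv_iter hinv _ w).mpr hw)
  exact hy (h1 y hyR)

/-- Minimal attractors and proper minimal repellers are disjoint. -/
theorem disj [CompactSpace X] [ConnectedSpace X] {g : X ≃ₜ X} {c : ℝ} (h : LP g c) {A R : Set X}
    (hA : MinAtt g A) (hR : MinAtt g.symm R) (hRne : R ≠ univ) : Disjoint A R := by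
  rw [Set.disjoint_iff_inter_eq_empty]
  by_contra hcon
  have hne : (A ∩ R).Nonempty := nonempty_iff_ne_empty.mpr hcon
  have h2 : A ⊆ R := rep_subset h.symm (A := R) (R := A) hR hA (by rwa [inter_comm])
  obtain ⟨a, haA, haR⟩ := hne
  obtain ⟨w, hw1, hw2⟩ := exit h hR hRne h.c_pos haR
  exact hw2 (h2 (hA.1.sat a haA w (WS.of_SR (h.cU _ _ hw1))))

theorem bas_sat {g : X ≃ₜ X} {A : Set X} : ∀ x ∈ Bas g A, ∀ y, WS g x y → y ∈ Bas g A := by
  rintro x ⟨a, ha, h1⟩ y h2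
  exact ⟨a, ha, h2.symm'.trans h1⟩

/-- The closure of the basin of an attractor is a repeller. -/
theorem closure_bas [CompactSpace X] {g : X ≃ₜ X} {c : ℝ} (h : LP g c) {A : Set X}
    (hA : IsAtt g A) : IsAtt g.symm (closure (Bas g A)) := by
  refine ⟨isClosed_closure, ?_, ?_, ?_⟩
  · obtain ⟨a, ha⟩ := hA.nonempty
    exact ⟨a, subset_closure (subset_bas g A ha)⟩
  · intro w
    have e1 : g.symm ⁻¹' (Bas g A) = Bas g A := by
      ext w
      rw [mem_preimage, bas_map (φ := g.symm) (fun x => by simp) (inv_symm hA.inv)]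
    have e2 := g.symm.preimage_closure (Bas g A)
    rw [e1] at e2
    rw [← mem_preimage, e2]
  · exact closure_sat h.symm bas_sat

/-- Without transitivity there are a minimal attractor and a minimal repeller each of which is in the
closure of the basin of the other one. -/
theorem exists_pair [CompactSpace X] [ConnectedSpace X] {g : X ≃ₜ X} {c : ℝ} (h : LP g c)
    (hn : ¬ ∀ S, IsAtt g S → S = univ) : ∃ A R : Set X, MinAtt g A ∧ MinAtt g.symm R ∧
      Disjoint A R ∧ R ⊆ closure (Bas g A) ∧ A ⊆ closure (Bas g.symm R) := by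
  push Not at hn
  obtain ⟨S, hS, hSne⟩ := hn
  obtain ⟨A, hAS, hA⟩ := exists_minAtt hS
  have hAne : A ≠ univ := by
    rintro rfl
    exact hSne (univ_subset_iff.mp hAS)
  obtain ⟨R, hRA, hR⟩ := exists_minAtt (closure_bas h hA.1)
  have hRne : R ≠ univ := by
    rintro rfl
    apply hAne
    apply no_rep h.symm (S := A) ?_ hA.1
    intro B hB
    exact univ_subset_iff.mp (hR.2 B hB (subset_univ _))
  have hd := disj h hA hR hRne
  refine ⟨A, R, hA, hR, hd, hRA, ?_⟩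
  -- a connecting orbit
  obtain ⟨r, hr⟩ := hR.1.nonempty
  obtain ⟨δ, hδ, hlp⟩ := h.lp c h.c_pos
  obtain ⟨y, hy, hry⟩ := Metric.mem_closure_iff.mp (hRA hr) δ hδ
  obtain ⟨z, hz1, hz2⟩ := hlp y r (by rwa [dist_comm])
  have hzA : z ∈ Bas g A := bas_sat y hy z (WS.of_SR (h.cS _ _ hz1))
  have hzR : z ∈ Bas g.symm R := ⟨r, hr, (WS.of_SR (h.cU _ _ hz2)).symm'⟩
  have hB : IsAtt g (closure (Bas g.symm R)) := closure_bas h.symm (g := g.symm) hR.1
  refine hA.subset_of_meet hB ?_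
  obtain ⟨a, ha, hza⟩ := hzA
  obtain ⟨b, -, φ, hφ, hlim⟩ := isCompact_univ.tendsto_subseq
    (x := fun n : ℕ => g^[n] a) fun n => mem_univ _
  have hbA : b ∈ A := hA.1.closed.mem_of_tendsto hlim
    (Eventually.of_forall fun n => (inv_iter hA.1.inv _ a).mpr ha)
  have h3 : Tendsto (fun n => dist (g^[φ n] a) (g^[φ n] z)) atTop (𝓝 0) :=
    Tendsto.comp (g := fun n : ℕ => dist (g^[n] a) (g^[n] z)) hza.symm' hφ.tendsto_atTop
  have hlim2 : Tendsto (fun n => g^[φ n] z) atTop (𝓝 b) := hlim.congr_dist h3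
  refine ⟨b, hbA, mem_closure_of_tendsto hlim2 (Eventually.of_forall fun n => ?_)⟩
  exact (inv_iter (bas_map (g := g.symm) (φ := g) (fun x => by simp)
    (fun x => by rw [← hR.1.inv (g x), g.symm_apply_apply])) (φ n) z).mpr hzR

/-- From every point of the repeller a short unstable path leads to a point well inside the basin. -/
theorem exit_bas [CompactSpace X] {g : X ≃ₜ X} {c : ℝ} (h : LP g c) {A R : Set X}
    (hA : MinAtt g A) (hR : MinAtt g.symm R) (hRA : R ⊆ closure (Bas g A)) {ε : ℝ} (hε : 0 < ε)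
    (hεc : ε ≤ c) :
    ∃ η > 0, ∀ v ∈ R, ∃ w, SR g.symm ε v w ∧ ∀ y, dist w y < η → y ∈ Bas g A := by
  have hK : IsCompact R := hR.1.closed.isCompact
  have key : ∃ η > 0, ∀ v ∈ R ∩ R, ∃ w, SR g.symm ε v w ∧ ∀ y, dist w y < η → y ∈ Bas g A := by
    refine hK.induction_on (p := fun S => ∃ η > 0, ∀ v ∈ S ∩ R, ∃ w, SR g.symm ε v w ∧
      ∀ y, dist w y < η → y ∈ Bas g A) ?_ ?_ ?_ ?_
    · exact ⟨1, one_pos, fun v hv => absurd hv.1 (notMem_empty v)⟩
    · rintro S T hST ⟨η, hη, h1⟩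
      exact ⟨η, hη, fun v hv => h1 v ⟨hST hv.1, hv.2⟩⟩
    · rintro S T ⟨η, hη, h1⟩ ⟨η', hη', h2⟩
      refine ⟨min η η', lt_min hη hη', fun v hv => ?_⟩
      rcases hv with ⟨hv | hv, hvR⟩
      · obtain ⟨w, h3, h4⟩ := h1 v ⟨hv, hvR⟩
        exact ⟨w, h3, fun r hr => h4 r (hr.trans_le (min_le_left _ _))⟩
      · obtain ⟨w, h3, h4⟩ := h2 v ⟨hv, hvR⟩
        exact ⟨w, h3, fun r hr => h4 r (hr.trans_le (min_le_right _ _))⟩
    · intro v hv
      obtain ⟨δ₀, hδ₀, hlp⟩ := h.lp (ε / 2) (half_pos hε)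
      obtain ⟨y, hy, hvy⟩ := Metric.mem_closure_iff.mp (hRA hv) δ₀ hδ₀
      obtain ⟨z, hz1, hz2⟩ := hlp y v (by rwa [dist_comm])
      have hzA : z ∈ Bas g A := bas_sat y hy z (WS.of_SR (h.cS _ _ (hz1.mono (by linarith))))
      obtain ⟨η, hη, hball⟩ := Metric.isOpen_iff.mp (isOpen_bas h hA.1) z hzA
      obtain ⟨δ, hδ, hh⟩ := hol h (show 0 < min (η / 2) (ε / 2) from
        lt_min (half_pos hη) (half_pos hε))
      refine ⟨ball v δ, mem_nhdsWithin_of_mem_nhds (ball_mem_nhds v hδ), η / 2, half_pos hη,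
        fun v' hv' => ?_⟩
      obtain ⟨w', h1, h2⟩ := hh (ε / 2) (by linarith) v v' z
        (by rw [dist_comm]; exact hv'.1) hz2
      refine ⟨w', h2.mono ?_, fun y hy => hball ?_⟩
      · have := min_le_right (η / 2) (ε / 2)
        linarith
      · have h3 := (h1 0).trans (min_le_left _ _)
        rw [mem_ball, dist_comm]
        have := dist_triangle z w' y
        simp only [Function.iterate_zero, id] at h3
        linarith
  obtain ⟨η, hη, h1⟩ := key
  exact ⟨η, hη, fun v hv => h1 v ⟨hv, hv⟩⟩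

/-- Orbits that follow a minimal repeller for some time, leave it and then follow a minimal
attractor. -/
theorem rep_ineq2 [CompactSpace X] {g : X ≃ₜ X} {c : ℝ} (h : LP g c) {A R : Set X}
    (hA : MinAtt g A) (hR : MinAtt g.symm R) (hd : Disjoint A R) (hRA : R ⊆ closure (Bas g A))
    {a r : X} (ha : a ∈ A) (hr : r ∈ R) :
    ∃ K : ℕ, ∃ j₂ : ℕ, ∀ j₀ ≥ j₂,
      ∀ m n, j₀ * m ≤ n → ∑ i ∈ Finset.range m, P g.symm (c / 4) (c / 2) (j₀ * (i + 1)) r *
        P g (c / 4) (c / 2) (n - j₀ * (i + 1)) a ≤ K * P g (c / 4) (c / 2) n r := by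
  classical
  have hc := h.c_pos
  obtain ⟨η₂, hη₂, hex⟩ := exit_bas h hA hR hRA (ε := c / 16) (by linarith) (by linarith)
  -- the repeller does not meet the basin
  have hRV : ∀ r ∈ R, r ∉ Bas g A := by
    rintro r hr ⟨a, ha, hra⟩
    exact Set.disjoint_left.mp hd ha (hR.1.sat r hr a hra)
  obtain ⟨N, hdual⟩ := dual h hR hr (ε := c / 8) (η := c / 16) (δ := c / 2) (ε₀ := c / 4)
    (by linarith) (by linarith) (by linarith) (by linarith) (by linarith)
  obtain ⟨j₁, hj₁⟩ := pw (c := c) (show 0 < η₂ / 4 by linarith)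
  set ε₃ := min (c / 16) (η₂ / 4) with hε₃
  have hε₃0 : 0 < ε₃ := lt_min (by linarith) (by linarith)
  have hε₃1 : ε₃ ≤ c / 16 := min_le_left _ _
  have hε₃2 : ε₃ ≤ η₂ / 4 := min_le_right _ _
  set δ₄ := min (c / 8) (η₂ / 4) with hδ₄
  have hδ₄0 : 0 < δ₄ := lt_min (by linarith) (by linarith)
  have hδ₄1 : δ₄ ≤ c / 8 := min_le_left _ _
  have hδ₄2 : δ₄ ≤ η₂ / 4 := min_le_right _ _
  obtain ⟨K₁, hK₁, h1⟩ := P_shift h.symm (ε := c / 4) (δ := c / 2) (by linarith) (by linarith)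
    (by linarith) N
  obtain ⟨K₂, hK₂, jj, h2⟩ := P_gen h (ε := c / 4) (ε' := ε₃) (δ := c / 2) (δ' := c / 2)
    (by linarith) hε₃0 (by linarith) (by linarith) (by linarith) (by linarith)
  obtain ⟨K₃, hK₃, h3⟩ := P_chg h (ε := c / 4) (δ := δ₄) (δ' := c / 2) (by linarith) hδ₄0
    (by linarith) (by linarith)
  -- lower bound for the growth after the exit
  set W : Set X := {w | ∀ y, dist w y < η₂ → y ∈ Bas g A} with hW
  have hWc : IsClosed W := by
    have e : W = ⋂ y ∈ (Bas g A)ᶜ, {w | η₂ ≤ dist w y} := by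
      ext w
      simp only [hW, mem_iInter, mem_setOf_eq, mem_compl_iff]
      constructor
      · intro h y hy
        by_contra hc
        push Not at hc
        exact hy (h y hc)
      · intro h y hy
        by_contra hc
        exact absurd hy (not_lt.mpr (h y hc))
    rw [e]
    exact isClosed_biInter fun y _ => isClosed_le continuous_const
      (continuous_id.dist continuous_const)
  have hWB : g^[jj] '' W ⊆ Bas g A := by
    rintro _ ⟨w, hw, rfl⟩
    exact (inv_iter (bas_map (g := g) (φ := g) (fun _ => rfl) hA.1.inv) jj w).mpr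
      (hw w (by rw [dist_self]; exact hη₂))
  obtain ⟨C, hC⟩ := low_bas h hA ha (hWc.isCompact.image (g.continuous.iterate jj)) hWB
  refine ⟨K₁ * (N + 1) * (C * K₂) * K₃, max N j₁ + 1, ?_⟩
  intro j₀ hj₀ m n hmn
  have hNj : N ≤ j₀ := by have := le_max_left N j₁; omega
  have hj₁j : j₁ ≤ j₀ := by have := le_max_right N j₁; omega
  -- the pieces
  have hF : ∀ i, ∃ F : Finset X, (∀ y ∈ F, SR g.symm (c / 8) r y ∧ y ∈ R) ∧
      Sep g (3 * c / 8) (j₀ * (i + 1)) F ∧
      P g.symm (c / 4) (c / 2) (j₀ * (i + 1)) r ≤ K₁ * (N + 1) * F.card := by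
    intro i
    have hk : N ≤ j₀ * (i + 1) := by nlinarith
    obtain ⟨F₀, hF₀, hF₀c⟩ := P_att g.symm (c / 4) (show 0 < c / 2 by linarith)
      (j₀ * (i + 1) - N) r
    obtain ⟨F', hF1, hF2, hF3⟩ := hdual _ r hr F₀ hF₀
    have e : j₀ * (i + 1) - N + N = j₀ * (i + 1) := by omega
    rw [e] at hF2
    have h4 := h1 (j₀ * (i + 1) - N) r
    rw [e] at h4
    refine ⟨F', hF1, hF2.mono (by linarith) le_rfl, ?_⟩
    calc P g.symm (c / 4) (c / 2) (j₀ * (i + 1)) r
        ≤ K₁ * P g.symm (c / 4) (c / 2) (j₀ * (i + 1) - N) r := h4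
      _ = K₁ * F₀.card := by rw [hF₀c]
      _ ≤ K₁ * ((N + 1) * F'.card) := Nat.mul_le_mul_left _ hF3
      _ = _ := by ring
  choose F hF1 hF2 hF3 using hF
  have hw : ∀ v, ∃ w, v ∈ R → SR g.symm (c / 16) v w ∧ w ∈ W := by
    intro v
    by_cases hv : v ∈ R
    · obtain ⟨w, hw⟩ := hex v hv
      exact ⟨w, fun _ => hw⟩
    · exact ⟨v, fun h => absurd h hv⟩
  choose w hw using hw
  have hwR : ∀ v ∈ R, ∀ r ∈ R, η₂ ≤ dist (w v) r := by
    intro v hv r hr
    by_contra hcon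
    push Not at hcon
    exact hRV r hr ((hw v hv).2 r hcon)
  have hG : ∀ (k : ℕ) (v : X), ∃ G : Finset X, Val g ε₃ (c / 2) k (w v) G ∧
      (v ∈ R → P g (c / 4) (c / 2) k a ≤ (C * K₂) * G.card) := by
    intro k v
    obtain ⟨G, hG1, hG2⟩ := P_att g ε₃ (show 0 < c / 2 by linarith) k (w v)
    refine ⟨G, hG1, fun hv => ?_⟩
    have h4 := h2 k (g^[jj] (w v))
    rw [iterL] at h4
    rw [hG2]
    calc P g (c / 4) (c / 2) k a ≤ C * P g (c / 4) (c / 2) k (g^[jj] (w v)) :=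
          hC _ ⟨w v, (hw v hv).2, rfl⟩ k
      _ ≤ C * (K₂ * P g ε₃ (c / 2) k (w v)) := Nat.mul_le_mul_left _ h4
      _ = _ := by ring
  choose G hG1 hG2 using hG
  have hgR : ∀ k y, y ∈ R → g^[k] y ∈ R := fun k y hy =>
    (inv_iter (fun x => by rw [← hR.1.inv (g x), g.symm_apply_apply]) k y).mpr hy
  set T : ℕ → X → Finset X := fun i y =>
    (G (n - j₀ * (i + 1)) (g^[j₀ * (i + 1)] y)).image (g.symm^[j₀ * (i + 1)]) with hT
  have hkn : ∀ i < m, j₀ * (i + 1) ≤ n := fun i hi => by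
    have : j₀ * (i + 1) ≤ j₀ * m := Nat.mul_le_mul_left _ hi
    omega
  have hTG : ∀ i y z, z ∈ T i y → g^[j₀ * (i + 1)] z ∈ G (n - j₀ * (i + 1)) (g^[j₀ * (i + 1)] y) := by
    intro i y z hz
    obtain ⟨u, hu, rfl⟩ := Finset.mem_image.mp hz
    rwa [iterR]
  have hp1 : ∀ i y z, y ∈ R → z ∈ T i y →
      SR g.symm (c / 8) (g^[j₀ * (i + 1)] y) (g^[j₀ * (i + 1)] z) := by
    intro i y z hy hz
    have h4 := (hG1 _ _).1 _ (hTG i y z hz)
    have h5 := (hw _ (hgR (j₀ * (i + 1)) y hy)).1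
    exact (sr_tr h5 h4).mono (by linarith)
  have hp2 : ∀ i y z, y ∈ R → z ∈ T i y → ∀ r ∈ R, 3 * η₂ / 4 ≤ dist (g^[j₀ * (i + 1)] z) r := by
    intro i y z hy hz r hr
    have h4 := (hG1 _ _).1 _ (hTG i y z hz) 0
    simp only [Function.iterate_zero, id] at h4
    have h5 := hwR _ (hgR (j₀ * (i + 1)) y hy) r hr
    have := dist_triangle (w (g^[j₀ * (i + 1)] y)) (g^[j₀ * (i + 1)] z) r
    linarith
  have hp3 : ∀ i y z, y ∈ R → z ∈ T i y → ∀ k ≤ j₀ * (i + 1), dist (g^[k] y) (g^[k] z) ≤ c / 8 := by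
    intro i y z hy hz k hk
    have h4 := hp1 i y z hy hz (j₀ * (i + 1) - k)
    rw [bk g (by omega), bk g (by omega)] at h4
    have e : j₀ * (i + 1) - (j₀ * (i + 1) - k) = k := by omega
    rwa [e] at h4
  have hcross : ∀ i < m, ∀ i' < m, i < i' → ∀ y ∈ F i, ∀ y' ∈ F i', ∀ z ∈ T i y, ∀ z' ∈ T i' y',
      ∃ k ≤ n, δ₄ < dist (g^[k] z) (g^[k] z') := by
    intro i hi i' hi' hii y hy y' hy' z hz z' hz'
    refine ⟨j₀ * (i + 1), hkn i hi, ?_⟩
    have h4 := hp2 i y z (hF1 i y hy).2 hz _ (hgR (j₀ * (i + 1)) y' (hF1 i' y' hy').2)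
    have h5 := h.cU _ _ ((hp1 i' y' z' (hF1 i' y' hy').2 hz').mono (by linarith))
      (j₀ * (i' + 1) - j₀ * (i + 1))
    have h6 : j₀ * (i + 1) + j₀ ≤ j₀ * (i' + 1) := by nlinarith
    rw [bk g (by omega), bk g (by omega)] at h5
    have e : j₀ * (i' + 1) - (j₀ * (i' + 1) - j₀ * (i + 1)) = j₀ * (i + 1) := by omega
    rw [e] at h5
    have h7 := h5.trans ((pw_anti hc (show j₁ ≤ _ by omega)).trans hj₁)
    have := dist_triangle_right (g^[j₀ * (i + 1)] z) (g^[j₀ * (i + 1)] y') (g^[j₀ * (i + 1)] z')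
    linarith
  have hsame : ∀ i < m, ∀ y ∈ F i, ∀ y' ∈ F i, y ≠ y' → ∀ z ∈ T i y, ∀ z' ∈ T i y',
      ∃ k ≤ n, δ₄ < dist (g^[k] z) (g^[k] z') := by
    intro i hi y hy y' hy' hne z hz z' hz'
    obtain ⟨k, hk, h4⟩ := hF2 i y hy y' hy' hne
    refine ⟨k, hk.trans (hkn i hi), ?_⟩
    have h5 := hp3 i y z (hF1 i y hy).2 hz k hk
    have h6 := hp3 i y' z' (hF1 i y' hy').2 hz' k hk
    have := dist_triangle4_right (g^[k] y) (g^[k] y') (g^[k] z) (g^[k] z')
    linarith
  have hin : ∀ i < m, ∀ y ∈ F i, ∀ z ∈ T i y, ∀ z' ∈ T i y, z ≠ z' →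
      ∃ k ≤ n, δ₄ < dist (g^[k] z) (g^[k] z') := by
    intro i hi y hy z hz z' hz' hne
    have hinj : Function.Injective (g^[j₀ * (i + 1)]) := g.injective.iterate _
    obtain ⟨k, hk, h4⟩ := (hG1 _ _).2 _ (hTG i y z hz) _ (hTG i y z' hz') (hinj.ne hne)
    have := hkn i hi
    refine ⟨k + j₀ * (i + 1), by omega, ?_⟩
    rw [Function.iterate_add_apply, Function.iterate_add_apply]
    linarith
  set E : Finset X := (Finset.range m).biUnion fun i => (F i).biUnion (T i) with hE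
  have hval : Val g (c / 4) δ₄ n r E := by
    constructor
    · intro z hz
      simp only [hE, Finset.mem_biUnion, Finset.mem_range] at hz
      obtain ⟨i, hi, y, hy, hz⟩ := hz
      have h4 := (hF1 i y hy).1
      have h5 : SR g.symm (c / 8) y z := by
        intro k
        have := hp1 i y z (hF1 i y hy).2 hz (k + j₀ * (i + 1))
        rw [Function.iterate_add_apply, Function.iterate_add_apply, iterL, iterL] at this
        exact this
      exact (sr_tr h4 h5).mono (by linarith)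
    · intro z hz z' hz' hne
      simp only [hE, Finset.mem_biUnion, Finset.mem_range] at hz hz'
      obtain ⟨i, hi, y, hy, hz⟩ := hz
      obtain ⟨i', hi', y', hy', hz'⟩ := hz'
      rcases lt_trichotomy i i' with h4 | h4 | h4
      · exact hcross i hi i' hi' h4 y hy y' hy' z hz z' hz'
      · subst h4
        by_cases hyy : y = y'
        · subst hyy
          exact hin i hi y hy z hz z' hz' hne
        · exact hsame i hi y hy y' hy' hyy z hz z' hz'
      · obtain ⟨k, hk, h5⟩ := hcross i' hi' i hi h4 y' hy' y hy z' hz' z hz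
        exact ⟨k, hk, by rwa [dist_comm]⟩
  have hself : ∀ z : X, ¬ ∃ k ≤ n, δ₄ < dist (g^[k] z) (g^[k] z) := by
    rintro z ⟨k, -, hk⟩
    rw [dist_self] at hk
    linarith
  have hEcard : E.card = ∑ i ∈ Finset.range m, ∑ y ∈ F i, (T i y).card := by
    rw [hE, Finset.card_biUnion]
    · refine Finset.sum_congr rfl fun i hi => ?_
      rw [Finset.card_biUnion]
      intro y hy y' hy' hne
      rw [Function.onFun, Finset.disjoint_left]
      intro z hz hz'
      exact hself z (hsame i (Finset.mem_range.mp hi) y hy y' hy' hne z hz z hz')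
    · intro i hi i' hi' hne
      rw [Function.onFun, Finset.disjoint_left]
      intro z hz hz'
      obtain ⟨y, hy, hz⟩ := Finset.mem_biUnion.mp hz
      obtain ⟨y', hy', hz'⟩ := Finset.mem_biUnion.mp hz'
      rw [Finset.mem_coe, Finset.mem_range] at hi hi'
      rcases lt_or_gt_of_ne hne with h4 | h4
      · exact hself z (hcross i hi i' hi' h4 y hy y' hy' z hz z hz')
      · exact hself z (hcross i' hi' i hi h4 y' hy' y hy z hz' z hz)
  have hTc : ∀ i, ∀ y ∈ F i, P g (c / 4) (c / 2) (n - j₀ * (i + 1)) a ≤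
      (C * K₂) * (T i y).card := by
    intro i y hy
    rw [hT]
    simp only
    rw [Finset.card_image_of_injective _ (g.symm.injective.iterate _)]
    exact hG2 _ _ (hgR _ _ (hF1 i y hy).2)
  calc ∑ i ∈ Finset.range m, P g.symm (c / 4) (c / 2) (j₀ * (i + 1)) r *
        P g (c / 4) (c / 2) (n - j₀ * (i + 1)) a
      ≤ ∑ i ∈ Finset.range m, K₁ * (N + 1) * (C * K₂) * ∑ y ∈ F i, (T i y).card := by
        refine Finset.sum_le_sum fun i _ => ?_
        calc P g.symm (c / 4) (c / 2) (j₀ * (i + 1)) r *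
              P g (c / 4) (c / 2) (n - j₀ * (i + 1)) a
            ≤ (K₁ * (N + 1) * (F i).card) * P g (c / 4) (c / 2) (n - j₀ * (i + 1)) a :=
              Nat.mul_le_mul_right _ (hF3 i)
          _ = K₁ * (N + 1) * ∑ y ∈ F i, P g (c / 4) (c / 2) (n - j₀ * (i + 1)) a := by
              rw [Finset.sum_const, smul_eq_mul]; ring
          _ ≤ K₁ * (N + 1) * ∑ y ∈ F i, (C * K₂) * (T i y).card :=
              Nat.mul_le_mul_left _ (Finset.sum_le_sum fun y hy => hTc i y hy)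
          _ = _ := by rw [← Finset.mul_sum]; ring
    _ = K₁ * (N + 1) * (C * K₂) * E.card := by rw [← Finset.mul_sum, hEcard]
    _ ≤ K₁ * (N + 1) * (C * K₂) * P g (c / 4) δ₄ n r := Nat.mul_le_mul_left _ (P_le hδ₄0 hval)
    _ ≤ K₁ * (N + 1) * (C * K₂) * (K₃ * P g (c / 4) (c / 2) n r) :=
        Nat.mul_le_mul_left _ (h3 n r)
    _ = _ := by ring

end Pool.Agent.W5h91.GG
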